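import Mathlib
import Pool.Agent.Helper853.Mid.Hull

set_option autoImplicit false

namespace Pool.Agent.Results.MP_294ab0_an.HullNotAll

/-- Let `Ω ⊊ ℂⁿ` be a Fatou-Bieberbach domain. Suppose that either some point `x` of `ℂⁿ` lies in
the polynomial hull of no compact subset of `Ω`, or `Ω` is Runge in `ℂⁿ`. Then there is a
holomorphically convex domain strictly between `Ω` and `ℂⁿ`. -/
theorem result :
    ∀ (n : ℕ) (Ω : Set (Fin n → ℂ)),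
      IsOpen Ω →
      (∃ F G : (Fin n → ℂ) → (Fin n → ℂ),
          Differentiable ℂ F ∧ DifferentiableOn ℂ G Ω ∧ Set.range F = Ω ∧
            ∀ z, G (F z) = z) →
      Ω ≠ Set.univ →
      ((∃ x : Fin n → ℂ, ∀ K : Set (Fin n → ℂ), IsCompact K → K ⊆ Ω →
          ∃ f : (Fin n → ℂ) → ℂ, Differentiable ℂ f ∧ (∀ w ∈ K, ‖f w‖ ≤ 1) ∧ 1 < ‖f x‖) ∨
       (∀ g : (Fin n → ℂ) → ℂ, DifferentiableOn ℂ g Ω →
          ∀ K : Set (Fin n → ℂ), IsCompact K → K ⊆ Ω → ∀ ε : ℝ, 0 < ε →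
            ∃ f : (Fin n → ℂ) → ℂ, Differentiable ℂ f ∧ ∀ z ∈ K, ‖f z - g z‖ < ε)) →
      ∃ Ω' : Set (Fin n → ℂ), IsOpen Ω' ∧ IsConnected Ω' ∧ Ω ⊂ Ω' ∧ Ω' ≠ Set.univ ∧
        ∀ K : Set (Fin n → ℂ), IsCompact K → K ⊆ Ω' →
          IsCompact {z | z ∈ Ω' ∧ ∀ f : (Fin n → ℂ) → ℂ, DifferentiableOn ℂ f Ω' →
            ∀ c : ℝ, (∀ w ∈ K, ‖f w‖ ≤ c) → ‖f z‖ ≤ c} := by
  intro n Ω ho hFB hne h
  obtain ⟨F, G, hF, hG, hr, hGF⟩ := hFB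
  have hc : IsConnected Ω := by
    rw [← hr]
    exact isConnected_range hF.continuous
  refine Helper853.Mid.intermediate ho hc ?_
  rcases h with ⟨x, hx⟩ | hR
  · refine ⟨x, ?_⟩
    rintro ⟨K, hK, hKΩ, hxK⟩
    obtain ⟨f, hf, hfK, hfx⟩ := hx K hK hKΩ
    exact absurd (hxK f hf 1 hfK) (not_le.2 hfx)
  · exact Helper853.Mid.runge_hat ho F G hF hG hr hGF hne hR

end Pool.Agent.Results.MP_294ab0_an.HullNotAll
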